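import Mathlib
import Pool.Agent.V1137.Magneto

/-!
# MP_3489b6_co, Q1: `ν₃ > 0`; more precisely `ν(G) ≥ d - 2√(d-1)` whenever `d_min(G) ≥ d ≥ 3`.
-/

namespace Pool.Agent.Results.MP_3489b6_co.NuThree

open Pool.Agent.V1137.Magneto

/-- There is `c > 0` with `ν(G) ≥ c` for every finite graph of minimum degree at least `3`, and more
generally `ν(G) ≥ d - 2 √(d - 1)` for every finite graph of minimum degree at least `d ≥ 3`. -/
theorem result :
    (∃ c : ℝ, 0 < c ∧ ∀ (V : Type) [Fintype V] [DecidableEq V] [Nonempty V] (G : SimpleGraph V)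
      [DecidableRel G.Adj], (∀ v, 3 ≤ G.degree v) → c ≤ nu G) ∧
    (∀ d : ℕ, 3 ≤ d → ∀ (V : Type) [Fintype V] [DecidableEq V] [Nonempty V] (G : SimpleGraph V)
      [DecidableRel G.Adj], (∀ v, d ≤ G.degree v) → (d : ℝ) - 2 * Real.sqrt (d - 1) ≤ nu G) := by
  refine ⟨⟨3 - 2 * Real.sqrt 2, ?_, ?_⟩, ?_⟩
  · have h : Real.sqrt 2 < 3 / 2 := by
      rw [Real.sqrt_lt' (by norm_num)]
      norm_num
    linarith
  · intro V _ _ _ G _ hG
    have := nu_ge_of_minDeg G 3 (by norm_num) hG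
    norm_num at this ⊢
    exact this
  · intro d hd V _ _ _ G _ hG
    exact nu_ge_of_minDeg G d (by omega) hG

end Pool.Agent.Results.MP_3489b6_co.NuThree
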